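import Pool.Agent.Helper64.DT.Stmts

/-! D3: exactly one of three pairwise nonadjacent neighbours separates the other two. -/

set_option autoImplicit false

namespace Pool.Agent.Helper64.DT

open Pool.Agent.Helper64.CT
open Pool.Agent.Helper64.HG (Ovl Model Circ IC HellyCircle ChordModel)

theorem st_D3 (hA : ST_D3A) (hC : ST_D3C) (hD : ST_D3D) : ST_D3 := by
  intro V G s hpc hpr hdf hI hs htr
  intro n a b c ha hb hc hab hac hbc nab nac nbc
  have nba : ¬ G.Adj b a := fun h => nab h.symm
  have nca : ¬ G.Adj c a := fun h => nac h.symm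
  have ncb : ¬ G.Adj c b := fun h => nbc h.symm
  have kA := hA V G s hpc hpr hdf hI hs htr
  have kC := hC V G
  have kD := hD V G s hpc hpr hdf hI hs htr
  have n1 : ¬ (s c a ≠ s c b ∧ s a b ≠ s a c) := fun h =>
    kA n a b c ha hb hc hab hac hbc nab nac nbc h.1 h.2
  have n2 : ¬ (s c a ≠ s c b ∧ s b a ≠ s b c) := fun h =>
    kA n b a c hb ha hc hab.symm hbc hac nba nbc nac (Ne.symm h.1) h.2
  have n3 : ¬ (s a b ≠ s a c ∧ s b a ≠ s b c) := fun h =>
    kA n b c a hb hc ha hbc hab.symm hac.symm nbc nba nca h.1 (Ne.symm h.2)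
  have n4 : ¬ (s c a = s c b ∧ s a b = s a c ∧ s b a = s b c) := by
    rintro ⟨e1, e2, e3⟩
    by_cases qC : Comp G c a b
    · by_cases qA : Comp G a b c
      · by_cases qB : Comp G b a c
        · exact hI ⟨n, a, b, c, ha, hb, hc, qC, qA, qB⟩
        · have := kC n a c b ha hc hb hac hab hbc.symm nac nab ncb qB qA.symm qC
          exact (hs b).2 a c this e3
      · by_cases qB : Comp G b a c
        · have := kC n b c a hb hc ha hbc hab.symm hac.symm nbc nba nca qA qB.symm qC.symm
          exact (hs a).2 b c this e2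
        · exact kD n b c a hb hc ha hbc hab.symm hac.symm nbc nba nca qA (fun h => qB h.symm) e2
            e3.symm e1.symm
    · by_cases qA : Comp G a b c
      · by_cases qB : Comp G b a c
        · have := kC n a b c ha hb hc hab hac hbc nab nac nbc qC qA qB
          exact (hs c).2 a b this e1
        · exact kD n b a c hb ha hc hab.symm hbc hac nba nbc nac (fun h => qC h.symm) qB e1.symm e3
            e2
      · exact kD n a b c ha hb hc hab hac hbc nab nac nbc qC qA e1 e2 e3
  unfold Ex1
  by_cases p1 : s c a ≠ s c b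
  · left
    exact ⟨p1, fun h => n1 ⟨p1, h⟩, fun h => n2 ⟨p1, h⟩⟩
  · by_cases p2 : s a b ≠ s a c
    · right; left
      exact ⟨p1, p2, fun h => n3 ⟨p2, h⟩⟩
    · right; right
      refine ⟨p1, p2, fun h => n4 ⟨not_not.1 p1, not_not.1 p2, h⟩⟩

end Pool.Agent.Helper64.DT
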